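import Pool.Agent.H158.GP.Main

set_option autoImplicit false

/-!
# The error term of the prime number theorem reaches the order `√x (log log log x)²`, or there are extremely close relations

`E(x) = ψ(x) - x` and `F(x) = √x (log log log x)²`, the function `F_{0,0,2}` of the problem. No hypothesis is assumed, not even the
Riemann hypothesis.

Call an ordinate `0 < γ ≤ T` of a zero of `ζ` on the critical line *related* (at height `T`, with exponent `A`) if it occurs in a signed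
sum `± γ_1 ± ... ± γ_n` of `n ≥ 2` distinct ordinates `γ_j ≤ T` of zeros on the critical line which is at distance at most `exp(-T^A)`
from `0` or from the ordinate `γ_0 > 0` of a zero on the critical line.

There is a constant `c > 0` such that for every `A > 1` at least one of the following holds.

* `limsup E/F ≥ c / A²` and `liminf E/F ≤ - c / A²`.
* For ALL large `T` the sum of `1/γ` over the related ordinates `γ ≤ T` (each counted once) is at least `c (log T)²`, which is the order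
  of this sum over all ordinates up to `T`.
-/

namespace Pool.Agent.Results.MP_ed189b_nt.OmegaOrRelations

open Filter Topology Complex

/-- `E(x) = ψ(x) - x`, `ψ(x) = ∑_{n ≤ x} Λ(n)`. -/
noncomputable def E (x : ℝ) : ℝ := ∑ n ∈ Finset.Icc 1 ⌊x⌋₊, ArithmeticFunction.vonMangoldt n - x

/-- `F(x) = √x (log log log x)²`. -/
noncomputable def F (x : ℝ) : ℝ := Real.sqrt x * Real.log (Real.log (Real.log x)) ^ (2 : ℝ)

/-- The number `γ` belongs to a finite set `S` of at least two ordinates `0 < t ≤ T` of zeros on the critical line, and some signed sum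
`∑_{t ∈ S} σ_t t`, `σ_t = ± 1`, is within `exp(-T^A)` of `γ₀`, where `γ₀ = 0` or `γ₀ > 0` is the ordinate of a zero on the critical line. -/
def Related (A T γ : ℝ) : Prop :=
  ∃ (S : Finset ℝ) (σ : ℝ → ℤ) (γ₀ : ℝ), γ ∈ S ∧ 2 ≤ S.card ∧
    (∀ t ∈ S, 0 < t ∧ t ≤ T ∧ riemannZeta (1 / 2 + t * I) = 0 ∧ (σ t = 1 ∨ σ t = -1)) ∧
    (γ₀ = 0 ∨ 0 < γ₀ ∧ riemannZeta (1 / 2 + γ₀ * I) = 0) ∧
    |∑ t ∈ S, (σ t : ℝ) * t - γ₀| ≤ Real.exp (-(T ^ A))

theorem F_pos : ∀ᶠ x : ℝ in atTop, 0 < F x := by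
  have h : Tendsto (fun x : ℝ => Real.log (Real.log (Real.log x))) atTop atTop :=
    Real.tendsto_log_atTop.comp (Real.tendsto_log_atTop.comp Real.tendsto_log_atTop)
  filter_upwards [h.eventually_gt_atTop 0, eventually_gt_atTop 0] with x h1 h2
  exact mul_pos (Real.sqrt_pos.2 h2) (Real.rpow_pos_of_pos h1 _)

/-- **Theorem.** -/
theorem result : ∃ c : ℝ, 0 < c ∧ ∀ A : ℝ, 1 < A →
    (((c / A ^ 2 : ℝ) : EReal) ≤ limsup (fun x : ℝ => ((E x / F x : ℝ) : EReal)) atTop ∧
      liminf (fun x : ℝ => ((E x / F x : ℝ) : EReal)) atTop ≤ ((-(c / A ^ 2) : ℝ) : EReal)) ∨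
    ∀ᶠ T : ℝ in atTop, ∃ R : Finset ℝ,
      (∀ γ ∈ R, 0 < γ ∧ γ ≤ T ∧ riemannZeta (1 / 2 + γ * I) = 0 ∧ Related A T γ) ∧
      c * Real.log T ^ 2 ≤ ∑ γ ∈ R, 1 / γ := by
  obtain ⟨c, hc, hmain⟩ := Pool.Agent.H158.GP.mainP
  refine ⟨c, hc, fun A hA => ?_⟩
  by_cases hb : ∀ᶠ T : ℝ in atTop, ∃ R : Finset ℝ,
      (∀ γ ∈ R, 0 < γ ∧ γ ≤ T ∧ riemannZeta (1 / 2 + γ * I) = 0 ∧ Related A T γ) ∧
      c * Real.log T ^ 2 ≤ ∑ γ ∈ R, 1 / γ
  · exact Or.inr hb
  have hA0 : 0 < A := by linarith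
  obtain ⟨b, hbd⟩ : ∃ b : ℝ, b = c / A ^ 2 := ⟨_, rfl⟩
  have hb0 : 0 < b := by rw [hbd]; positivity
  have key : ∀ s B : ℝ, (s = 1 ∨ s = -1) → 0 < B → B < b → Pool.Agent.H158.GP.OneSidedP s B 2 → False := by
    intro s B hs hB hBb h
    apply hb
    rw [hbd] at hBb
    filter_upwards [hmain A hA.le s B hs hB h hBb] with T hT
    obtain ⟨R, hR, hsum⟩ := hT
    refine ⟨R, fun γ hγ => ?_, hsum⟩
    obtain ⟨h1, h2, h3, S, σ, γ₀, hγS, hcard, hS, h0, hle⟩ := hR γ hγ
    exact ⟨h1, h2, h3, S, σ, γ₀, hγS, hcard, hS, h0, hle⟩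
  left
  rw [← hbd]
  constructor
  · by_contra hcon
    push Not at hcon
    obtain ⟨w, hw1, hw2⟩ := EReal.lt_iff_exists_real_btwn.1 hcon
    have hwb : w < b := EReal.coe_lt_coe_iff.1 hw2
    have h2 := eventually_lt_of_limsup_lt hw1 (by isBoundedDefault)
    refine key 1 (max w (b / 2)) (Or.inl rfl) (lt_max_of_lt_right (by linarith)) (max_lt hwb (by linarith)) ?_
    filter_upwards [h2, F_pos] with x h3 h4
    have h5 : E x / F x < w := EReal.coe_lt_coe_iff.1 h3
    rw [div_lt_iff₀ h4] at h5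
    show 1 * E x ≤ max w (b / 2) * F x
    rw [one_mul]
    exact h5.le.trans (mul_le_mul_of_nonneg_right (le_max_left _ _) h4.le)
  · by_contra hcon
    push Not at hcon
    obtain ⟨w, hw1, hw2⟩ := EReal.lt_iff_exists_real_btwn.1 hcon
    have hwb : -b < w := EReal.coe_lt_coe_iff.1 hw1
    have h2 := eventually_lt_of_lt_liminf hw2 (by isBoundedDefault)
    refine key (-1) (max (-w) (b / 2)) (Or.inr rfl) (lt_max_of_lt_right (by linarith))
      (max_lt (by linarith) (by linarith)) ?_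
    filter_upwards [h2, F_pos] with x h3 h4
    have h5 : w < E x / F x := EReal.coe_lt_coe_iff.1 h3
    rw [lt_div_iff₀ h4] at h5
    show -1 * E x ≤ max (-w) (b / 2) * F x
    have h6 : -w * F x ≤ max (-w) (b / 2) * F x := mul_le_mul_of_nonneg_right (le_max_left _ _) h4.le
    linarith

end Pool.Agent.Results.MP_ed189b_nt.OmegaOrRelations
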